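import Pool.Agent.BLP.StmtsA

/-!
# Squad BLP, row COV: translations and scaling
-/

set_option autoImplicit false

namespace Pool.Agent.BLP.H6

open Pool.Agent.BLP
open scoped Pointwise

theorem cov : CovStmt := by
  intro b m n s t
  refine ⟨fun a => ?_, fun k => ?_, fun l hl => ?_⟩
  · unfold L
    congr 1
    ext E
    simp only [Set.mem_setOf_eq]
    constructor
    · rintro ⟨τ, h1, h2, h3, rfl⟩
      refine ⟨fun r => τ r + a, by simp only [h1], by simp only [h2],
        fun r hr hr' => by have := h3 r hr hr'; simp only; linarith, ?_⟩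
      unfold En shT
      refine Finset.sum_congr rfl fun r _ => ?_
      ring
    · rintro ⟨τ, h1, h2, h3, rfl⟩
      refine ⟨fun r => τ r - a, by simp only [h1]; ring, by simp only [h2]; ring,
        fun r hr hr' => by have := h3 r hr hr'; simp only; linarith, ?_⟩
      unfold En shT
      refine Finset.sum_congr rfl fun r _ => ?_
      simp only [sub_add_cancel]
      ring
  · unfold L
    congr 1
    ext E
    simp only [Set.mem_setOf_eq]
    have key : ∀ (τ : ℤ → ℝ), En b τ (m + k) (n + k) = En (shL k b) (fun r => τ (r + k)) m n := by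
      intro τ
      unfold En shL
      have h := Finset.map_add_right_Icc m n k
      rw [← h, Finset.sum_map]
      refine Finset.sum_congr rfl fun r _ => ?_
      simp only [addRightEmbedding_apply]
      rw [show r + k - 1 = r - 1 + k by ring]
    constructor
    · rintro ⟨τ, h1, h2, h3, rfl⟩
      refine ⟨fun r => τ (r - k), ?_, ?_, ?_, ?_⟩
      · simp only; rw [show m + k - 1 - k = m - 1 by ring]; exact h1
      · simp only; rw [show n + k - k = n by ring]; exact h2
      · intro r hr hr'
        have := h3 (r - k) (by omega) (by omega)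
        simp only
        rw [show r - 1 - k = r - k - 1 by ring]
        exact this
      · rw [key]
        simp only [add_sub_cancel_right]
    · rintro ⟨τ, h1, h2, h3, rfl⟩
      refine ⟨fun r => τ (r + k), ?_, ?_, ?_, ?_⟩
      · simp only; rw [show m - 1 + k = m + k - 1 by ring]; exact h1
      · exact h2
      · intro r hr hr'
        have := h3 (r + k) (by omega) (by omega)
        simp only
        rw [show r - 1 + k = r + k - 1 by ring]
        exact this
      · exact key τ
  · unfold L
    have hs : (0 : ℝ) ≤ (Real.sqrt l)⁻¹ := inv_nonneg.mpr (Real.sqrt_nonneg l)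
    rw [div_eq_inv_mul, ← smul_eq_mul, ← Real.sSup_smul_of_nonneg hs]
    congr 1
    ext E
    rw [Set.mem_smul_set]
    simp only [Set.mem_setOf_eq, smul_eq_mul]
    have key : ∀ (τ : ℤ → ℝ), En (scl l b) τ m n = (Real.sqrt l)⁻¹ * En b (fun r => l * τ r) m n := by
      intro τ
      unfold En scl
      rw [Finset.mul_sum]
      refine Finset.sum_congr rfl fun r _ => ?_
      ring
    constructor
    · rintro ⟨τ, h1, h2, h3, rfl⟩
      refine ⟨En b (fun r => l * τ r) m n, ⟨fun r => l * τ r, by simp only [h1], by simp only [h2],
        fun r hr hr' => mul_le_mul_of_nonneg_left (h3 r hr hr') hl.le, rfl⟩, (key τ).symm⟩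
    · rintro ⟨F, ⟨τ, h1, h2, h3, rfl⟩, rfl⟩
      refine ⟨fun r => τ r / l, ?_, ?_, ?_, ?_⟩
      · simp only [h1]; field_simp
      · simp only [h2]; field_simp
      · intro r hr hr'
        exact div_le_div_of_nonneg_right (h3 r hr hr') hl.le
      · rw [key]
        congr 2
        ext r
        field_simp

end Pool.Agent.BLP.H6
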